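import Pool.Agent.H55.GW.Targets2

/-!
Module LO of the proof of MP_97b7aa_co (helper55)
-/

set_option autoImplicit false

namespace Pool.Agent.H55.GW.H27

open Pool.Agent.H55.GW Pool.Agent.H55.GW.Frame

/-- counting step: if `y` lies in at most `c` of the sets `S i`, in at most one of the sets `E j`,
and every `j` in a set of more than `c + 1` indices satisfies `y ∈ T ∪ S (i j) ∪ E j`, then
`y ∈ T` -/
theorem lo_count {W : Type} {n N : ℕ} (y : W) (T : Set W) (S : Fin n → Set W) (E : Fin N → Set W)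
    (c : ℕ) (i : Fin N → Fin n) (hi : Function.Injective i) (J : Finset (Fin N))
    (hJ : c + 1 < J.card) (hS : {k | y ∈ S k}.ncard ≤ c)
    (hE : ∀ j k, j ≠ k → Disjoint (E j) (E k))
    (h : ∀ j ∈ J, y ∈ T ∪ S (i j) ∪ E j) : y ∈ T := by
  classical
  by_contra hy
  have h1 : J ⊆ (Finset.univ.filter (fun j => y ∈ S (i j))) ∪
      (Finset.univ.filter (fun j => y ∈ E j)) := by
    intro j hj
    simp only [Finset.mem_union, Finset.mem_filter, Finset.mem_univ, true_and]
    rcases h j hj with (h2 | h2) | h2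
    · exact absurd h2 hy
    · exact Or.inl h2
    · exact Or.inr h2
  have h2 : (Finset.univ.filter (fun j => y ∈ E j)).card ≤ 1 := by
    rw [Finset.card_le_one]
    intro a ha b hb
    simp only [Finset.mem_filter, Finset.mem_univ, true_and] at ha hb
    by_contra hab
    exact Set.disjoint_left.1 (hE a b hab) ha hb
  have h3 : (Finset.univ.filter (fun j => y ∈ S (i j))).card ≤ c := by
    calc (Finset.univ.filter (fun j => y ∈ S (i j))).card
        = ((Finset.univ.filter (fun j => y ∈ S (i j))).image i).card :=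
          (Finset.card_image_of_injective _ hi).symm
      _ ≤ (Finset.univ.filter (fun k => y ∈ S k)).card := by
          apply Finset.card_le_card
          intro k hk
          obtain ⟨j, hj, rfl⟩ := Finset.mem_image.1 hk
          simpa using hj
      _ = {k | y ∈ S k}.ncard := by
          rw [← Set.ncard_coe_finset]
          congr 1
          ext k
          simp
      _ ≤ c := hS
  have h4 := (Finset.card_le_card h1).trans (Finset.card_union_le _ _)
  omega

/-- LO -/
theorem lo (h1 : T_MEN) (h2 : T_CLO) : T_LO := by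
  classical
  intro q hq φ hφ c
  refine ⟨φ ((q - 1) * (c + 1)), ?_⟩
  intro M F m hG hR hm hEx a₁ a₂ hne ha₁ ha₁' ha₂ ha₂' T₁ T₂ hT n w hw hwi S₁ S₂ hr₁ hr₂ hc₁ hc₂
  by_contra hn
  push Not at hn
  obtain ⟨X, hX⟩ : ∃ X : Finset Vx, X = Finset.univ.image w := ⟨_, rfl⟩
  have hXc : X.card = n := by
    rw [hX, Finset.card_image_of_injective _ hw, Finset.card_univ, Fintype.card_fin]
  have hsep : ∀ S : Finset Vx, Sep (F.D m) (S : Set Vx) (X : Set Vx) (F.snk m) →
      (q - 1) * (c + 1) + 1 ≤ S.card := by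
    intro S hS
    by_contra hlt
    have h3 : S.card ≤ (q - 1) * (c + 1) := by omega
    have h4 := hEx X (fun x hx => by
      rw [hX] at hx
      obtain ⟨i, -, rfl⟩ := Finset.mem_image.1 hx
      exact hwi i) S hS
    have h5 := hφ h3
    omega
  have hsnk : F.snk m ⊆ F.uni := by
    rintro x ⟨e, he, rfl⟩
    exact Or.inr ⟨e, by simpa using base_subset he, rfl⟩
  have hXU : (X : Set Vx) ⊆ F.uni := by
    intro x hx
    rw [Finset.mem_coe, hX] at hx
    obtain ⟨i, -, rfl⟩ := Finset.mem_image.1 hx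
    rcases hwi i with h | h
    · obtain ⟨v, hv, hv'⟩ := h
      rw [hv']
      exact Or.inl ⟨v, hv, rfl⟩
    · exact hsnk h
  obtain ⟨x, y, E, hE1, hE2⟩ := h1 Vx (F.D m) F.uni F.uni_finite (fun u v h => D_uni h) X
    (F.snk m) hXU hsnk _ hsep
  have hinj := lnk_inj (fun i => (hE1 i).2.2) hE2
  have hxi : ∀ j, ∃ i, w i = x j := by
    intro j
    have := (hE1 j).1
    rw [Finset.mem_coe, hX] at this
    obtain ⟨i, -, hi⟩ := Finset.mem_image.1 this
    exact ⟨i, hi⟩
  choose i hi using hxi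
  have hii : Function.Injective i := by
    intro j k hjk
    apply hinj.1
    rw [← hi j, ← hi k, hjk]
  have hyt : ∀ j, ∃ t ∈ F.base m, y j = Sum.inl t := fun j => (hE1 j).2.1
  choose t ht ht' using hyt
  have htt : Function.Injective t := by
    intro j k hjk
    apply hinj.2
    rw [ht' j, ht' k, hjk]
  have hw1 : ∀ j, RIn (F.D m) (T₁ ∪ S₁ (i j) ∪ E j) (Sum.inl a₁) (Sum.inl (t j)) := by
    intro j
    have h3 := (hr₁ (i j)).mono_set (T := T₁ ∪ S₁ (i j) ∪ E j) Set.subset_union_left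
    have h4 := (hE1 j).2.2.mono_set (T := T₁ ∪ S₁ (i j) ∪ E j) Set.subset_union_right
    rw [← hi j, ht' j] at h4
    exact h3.trans h4
  have hw2 : ∀ j, RIn (F.D m) (T₂ ∪ S₂ (i j) ∪ E j) (Sum.inl a₂) (Sum.inl (t j)) := by
    intro j
    have h3 := (hr₂ (i j)).mono_set (T := T₂ ∪ S₂ (i j) ∪ E j) Set.subset_union_left
    have h4 := (hE1 j).2.2.mono_set (T := T₂ ∪ S₂ (i j) ∪ E j) Set.subset_union_right
    rw [← hi j, ht' j] at h4
    exact h3.trans h4
  obtain ⟨z, T', hT'1, hT'2, hz⟩ := h2 q hq M F m hG hR hm a₁ a₂ hne ha₁ ha₁' ha₂ ha₂'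
    (Finset.univ.image t) (fun s hs => by
      obtain ⟨j, -, rfl⟩ := Finset.mem_image.1 hs
      exact ⟨ht j, (hw1 j).mono_set (Set.subset_univ _), (hw2 j).mono_set (Set.subset_univ _)⟩)
    (c + 1) (by
      rw [Finset.card_image_of_injective _ htt, Finset.card_univ, Fintype.card_fin]
      omega)
  obtain ⟨J, hJ⟩ : ∃ J : Finset (Fin ((q - 1) * (c + 1) + 1)),
      J = Finset.univ.filter (fun j => t j ∈ T') := ⟨_, rfl⟩
  have hJc : c + 1 < J.card := by
    have h3 : T' ⊆ J.image t := by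
      intro s hs
      obtain ⟨j, -, rfl⟩ := Finset.mem_image.1 (hT'1 hs)
      apply Finset.mem_image_of_mem
      rw [hJ]
      simp [hs]
    exact lt_of_lt_of_le hT'2 ((Finset.card_le_card h3).trans Finset.card_image_le)
  have hin : ∀ (a : ℕ) (ha : (Sum.inl a : Vx) ∈ ({Sum.inl a₁, Sum.inl a₂} : Set Vx)) (S : Set Vx)
      (j : Fin ((q - 1) * (c + 1) + 1)), j ∈ J → RIn (F.D m) S (Sum.inl a) (Sum.inl (t j)) →
      z ∈ S := by
    intro a ha S j hj hr
    rw [hJ] at hj
    have hj' : t j ∈ T' := (Finset.mem_filter.1 hj).2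
    obtain ⟨z', hz', hz''⟩ := (hz (t j) hj').exists_mem ha rfl hr
    rw [Set.mem_singleton_iff.1 hz'] at hz''
    exact hz''
  have hz1 : z ∈ T₁ := lo_count z T₁ S₁ E c i hii J hJc (hc₁ z) hE2
    (fun j hj => hin a₁ (Or.inl rfl) _ j hj (hw1 j))
  have hz2 : z ∈ T₂ := lo_count z T₂ S₂ E c i hii J hJc (hc₂ z) hE2
    (fun j hj => hin a₂ (Or.inr rfl) _ j hj (hw2 j))
  exact Set.disjoint_left.1 hT hz1 hz2

end Pool.Agent.H55.GW.H27
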