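import Pool.Agent.H55.GW.Targets2

/-!
Modules MR, TUT, UTU of the proof of MP_97b7aa_co (helper55)
-/

set_option autoImplicit false

namespace Pool.Agent.H55.GW.H27

open Pool.Agent.H55.GW Pool.Agent.H55.GW.Frame

/-- MR -/
theorem mr : T_MR := by
  classical
  intro M B R F m col h
  have hP : ∃ n : ℕ, ∃ (F' : Frame) (m' : ℕ → Vx) (col' : Bool → Set ℕ),
      Rig M B R F' m' col' ∧ F'.V.card = n := ⟨_, F, m, col, h, rfl⟩
  obtain ⟨n0, ⟨F0, m0, col0, h0, hc0⟩, hmin0⟩ : ∃ n0, (∃ (F' : Frame) (m' : ℕ → Vx)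
      (col' : Bool → Set ℕ), Rig M B R F' m' col' ∧ F'.V.card = n0) ∧ ∀ n, (∃ (F' : Frame)
      (m' : ℕ → Vx) (col' : Bool → Set ℕ), Rig M B R F' m' col' ∧ F'.V.card = n) → n0 ≤ n :=
    ⟨Nat.find hP, Nat.find_spec hP, fun n hn => Nat.find_min' hP hn⟩
  have hQ : ∃ k : ℕ, ∃ (F' : Frame) (m' : ℕ → Vx) (col' : Bool → Set ℕ),
      Rig M B R F' m' col' ∧ F'.V.card = n0 ∧ F'.edges = k := ⟨_, F0, m0, col0, h0, hc0, rfl⟩
  obtain ⟨F1, m1, col1, h1, hc1, he1⟩ := Nat.find_spec hQ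
  refine ⟨F1, m1, col1, h1, fun F' m' col' h' => ?_⟩
  have h2 := hmin0 F'.V.card ⟨F', m', col', h', rfl⟩
  rcases lt_or_eq_of_le h2 with h3 | h3
  · exact Or.inl (by rw [hc1]; exact h3)
  · refine Or.inr ⟨by rw [hc1]; exact h3, ?_⟩
    rw [he1]
    exact Nat.find_min' hQ ⟨F', m', col', h', h3.symm, rfl⟩

/-- TUT -/
theorem tut (h : T_UNC) : T_TUT := by
  intro M hM e he P₁ P₂ k hP₁ hP₂ ⟨X, hX, hX1, hX2, hX3⟩ ⟨Y, hY, hY1, hY2, hY3⟩
  have h1 := h M hM e he X hX Y hY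
  have h2 : lam M (X ∩ Y) ≤ k ∨ lam M (insert e (X ∪ Y)) ≤ k := by omega
  rcases h2 with h2 | h2
  · refine ⟨X ∩ Y, fun x hx => (hX hx.1).1, fun x hx => ⟨hX1 hx, hY1 hx⟩, ?_, h2⟩
    exact hX2.mono_right Set.inter_subset_left
  · refine ⟨insert e (X ∪ Y), ?_, ?_, ?_, h2⟩
    · intro x hx
      rcases hx with rfl | hx | hx
      · exact he
      · exact (hX hx).1
      · exact (hY hx).1
    · intro x hx
      exact Or.inr (Or.inl (hX1 hx))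
    · rw [Set.disjoint_left]
      intro x hx hx'
      rcases hx' with rfl | hx' | hx'
      · exact (hP₂ hx).2 rfl
      · exact Set.disjoint_left.1 hX2 hx hx'
      · exact Set.disjoint_left.1 hY2 hx hx'

/-- UTU -/
theorem utu (h1 : T_UTC) (h2 : T_CC) : T_UTU := by
  classical
  intro q hq φ hφ
  obtain ⟨Γ, hΓ⟩ := h1 q hq
  obtain ⟨n0, hn0⟩ := h2 q hq φ hφ Γ
  refine ⟨n0, fun M F m a₁ a₂ V₁ V₂ P₁ P₂ hG hR hGood hm hT n hL => ?_⟩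
  obtain ⟨Z, hZ, hZ1, hZ2, hZ3⟩ := hΓ M F m a₁ a₂ V₁ V₂ P₁ P₂ hG hR hm hT
  obtain ⟨L, S, hS, hLZ, hcut⟩ := hn0 M F hG hR hGood Z hZ hZ3
  have hsep : Sep F.G ((S.image (Sum.inr : ℕ → Vx) : Finset Vx) : Set Vx) (Sum.inl '' P₁)
      (Sum.inl '' P₂) := by
    rintro x ⟨a, ha, rfl⟩ y ⟨b, hb, rfl⟩ hr
    have hxL : (Sum.inl a : Vx) ∉ Lᶜ := fun h => h ((hLZ a (hZ (hZ1 ha))).2 (hZ1 ha))
    have hbE : b ∈ M.E := by
      rw [hR.1]
      exact base_subset (hT.snk₂ hb)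
    have hyL : (Sum.inl b : Vx) ∈ Lᶜ := fun h =>
      Set.disjoint_left.1 hZ2 hb ((hLZ b hbE).1 h)
    obtain ⟨u, v, hu1, hu2, huv, hv, hv2⟩ := hr.enter hxL hyL
    have huL : u ∈ L := by
      by_contra h
      exact hu2 h
    obtain ⟨s, hs, hs'⟩ := hcut u v huv huL hv
    have hsm : (Sum.inr s : Vx) ∈ ((S.image (Sum.inr : ℕ → Vx) : Finset Vx) : Set Vx) := by
      simp [hs]
    rcases hs' with rfl | rfl
    · exact hu1.right_mem.1 hsm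
    · exact hv2.left_mem hsm
  refine (hL.le_card hsep).trans (Finset.card_image_le.trans hS)

end Pool.Agent.H55.GW.H27
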